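import Pool.Agent.Run7.h302.PG.Pts5

/-!
MP_160ed4_ag, Q1: the special sets of a quasi-projective variety which are swept out by the entire
curves, and by the holomorphic maps from the punctured disc with an essential singularity, whose
homogeneous coordinates are polynomials in power series with Hadamard gaps (and in solutions of
linear differential equations).
-/

set_option autoImplicit false

namespace Pool.Agent.Results.MP_160ed4_ag.GapSeriesSpecialSets

open MvPolynomial Metric Set Filter Topology
open Pool.Agent.TH143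
open Pool.Agent.TH600.LC (GapRing GapOver)
open Run7.h302.PG (RingEnt RingPun OrdEnt OrdPun IsA1Curve OnLine)

/-- Let `X` be the quasi-projective variety `F = 0`, `Q ≠ 0` in projective space (an arbitrary
projective variety for `Q = 1`), and let `z₀` be a complex number. `GapRing z₀` is the ring generated
by the entire functions with Hadamard gaps at `z₀`, and `GapOver _ z₀` the ring generated by these
functions and by the entire solutions of linear differential equations with polynomial coefficients.

(1) Let `f` be a nonconstant entire curve in `X` with homogeneous coordinates without common zeros in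
`GapRing z₀` (`RingEnt`). Through all but finitely many of its points passes a nonconstant morphism
from the affine line to `X`.

(2) The same holds for the holomorphic maps from the punctured disc to `X` with an essential
singularity and homogeneous coordinates `h (1 / w)` without common zeros in the punctured disc, the
coordinates of `h` in `GapRing z₀` (`RingPun`).

(3), (4) Let `Q` have positive degree. Consider the nonconstant entire curves in `X`, and the
holomorphic maps from the punctured disc to `X` with an essential singularity, with such coordinates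
in the larger ring for which the value of `Q` has finite order (`OrdEnt`, `OrdPun`). Outside a
discrete set, through the points near the singularity pass nonconstant morphisms from the
multiplicative group to `X`.

(5) The Zariski closures of the unions of the images of the following three kinds of curves are
equal: the nonconstant morphisms from the affine line to `X`, the entire curves of (1), and the maps
of (2).

(6) If `Q` has positive degree, the Zariski closures of the unions of the images of the following
three kinds of curves are equal: the nonconstant morphisms from the multiplicative group to `X`,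
the entire curves of (3), and the maps of (4). -/
theorem result {N : ℕ} {ι : Type} (F : ι → MvPolynomial (Fin (N + 1)) ℂ)
    (hF : ∀ i, ∃ d, (F i).IsHomogeneous d) (Q : MvPolynomial (Fin (N + 1)) ℂ) {e : ℕ}
    (hQ : Q.IsHomogeneous e) (z₀ : ℂ) :
    (∀ f, RingEnt (GapRing z₀) F Q f →
      ∃ S : Set ℂ, S.Finite ∧ ∀ z ∉ S, OnLine F Q (f z)) ∧
    (∀ f, RingPun (GapRing z₀) F Q f →
      ∃ S : Set ℂ, S.Finite ∧ ∀ w ∉ S, w ≠ 0 → ‖w‖ < 1 → OnLine F Q (f w)) ∧
    (0 < e → ∀ f, OrdEnt (GapOver {u | Differentiable ℂ u ∧ PolODE u} z₀) F Q f →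
      ∃ R : ℝ, ∀ z0 : ℂ, R < ‖z0‖ → ∀ᶠ z in 𝓝[≠] z0, ∃ P, IsGmCurve F Q P ∧ Through P (f z)) ∧
    (0 < e → ∀ f, OrdPun (GapOver {u | Differentiable ℂ u ∧ PolODE u} z₀) F Q f →
      ∃ δ > 0, ∀ z0 : ℂ, z0 ≠ 0 → ‖z0‖ < δ →
        ∀ᶠ z in 𝓝[≠] z0, ∃ P, IsGmCurve F Q P ∧ Through P (f z)) ∧
    (∀ Z : Set (MvPolynomial (Fin (N + 1)) ℂ), (∀ G ∈ Z, ∃ d, G.IsHomogeneous d) →
      ((∀ f, RingEnt (GapRing z₀) F Q f → ∀ z, ∀ G ∈ Z, eval (f z) G = 0) ↔
        ∀ P, IsA1Curve F Q P → ∀ t, ∀ G ∈ Z, eval (fun j => (P j).eval t) G = 0) ∧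
      ((∀ f, RingPun (GapRing z₀) F Q f → ∀ w : ℂ, w ≠ 0 → ‖w‖ < 1 →
          ∀ G ∈ Z, eval (f w) G = 0) ↔
        ∀ P, IsA1Curve F Q P → ∀ t, ∀ G ∈ Z, eval (fun j => (P j).eval t) G = 0)) ∧
    (0 < e → ∀ Z : Set (MvPolynomial (Fin (N + 1)) ℂ), (∀ G ∈ Z, ∃ d, G.IsHomogeneous d) →
      ((∀ f, OrdEnt (GapOver {u | Differentiable ℂ u ∧ PolODE u} z₀) F Q f →
          ∀ z, ∀ G ∈ Z, eval (f z) G = 0) ↔
        ∀ P, IsGmCurve F Q P → ∀ t, t ≠ 0 → ∀ G ∈ Z, eval (fun j => (P j).eval t) G = 0) ∧
      ((∀ f, OrdPun (GapOver {u | Differentiable ℂ u ∧ PolODE u} z₀) F Q f →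
          ∀ w : ℂ, w ≠ 0 → ‖w‖ < 1 → ∀ G ∈ Z, eval (f w) G = 0) ↔
        ∀ P, IsGmCurve F Q P → ∀ t, t ≠ 0 → ∀ G ∈ Z, eval (fun j => (P j).eval t) G = 0)) := by
  refine ⟨fun f hf => Run7.h302.PG.ent_points hF hQ hf,
    fun f hf => Run7.h302.PG.pun_points hF hQ hf,
    fun he f hf => Run7.h302.PG.ord_points hF hQ he hf, fun he f hf => ?_,
    fun Z hZ => ⟨?_, ?_⟩, fun he Z hZ => ⟨?_, ?_⟩⟩
  · obtain ⟨δ, hδ, -, h⟩ := Run7.h302.PG.pun_ord_points hF hQ he hf
    exact ⟨δ, hδ, h⟩
  · constructor
    · intro h P hP t G hG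
      exact (Run7.h302.PG.closure_ent_gap hF hQ z₀ (hZ G hG)).1 (fun f hf z => h f hf z G hG) P hP t
    · intro h f hf z G hG
      exact (Run7.h302.PG.closure_ent_gap hF hQ z₀ (hZ G hG)).2 (fun P hP t => h P hP t G hG) f hf z
  · constructor
    · intro h P hP t G hG
      exact (Run7.h302.PG.closure_pun_gap hF hQ z₀ (hZ G hG)).1
        (fun f hf w h0 h1 => h f hf w h0 h1 G hG) P hP t
    · intro h f hf w h0 h1 G hG
      exact (Run7.h302.PG.closure_pun_gap hF hQ z₀ (hZ G hG)).2
        (fun P hP t => h P hP t G hG) f hf w h0 h1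
  · constructor
    · intro h P hP t ht G hG
      exact (Run7.h302.PG.closure_ord hF hQ he z₀ (hZ G hG)).1 (fun f hf z => h f hf z G hG) P hP
        t ht
    · intro h f hf z G hG
      exact (Run7.h302.PG.closure_ord hF hQ he z₀ (hZ G hG)).2
        (fun P hP t ht => h P hP t ht G hG) f hf z
  · constructor
    · intro h P hP t ht G hG
      exact (Run7.h302.PG.closure_pun_ord hF hQ he z₀ (hZ G hG)).1
        (fun f hf w h0 h1 => h f hf w h0 h1 G hG) P hP t ht
    · intro h f hf w h0 h1 G hG
      exact (Run7.h302.PG.closure_pun_ord hF hQ he z₀ (hZ G hG)).2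
        (fun P hP t ht => h P hP t ht G hG) f hf w h0 h1

end Pool.Agent.Results.MP_160ed4_ag.GapSeriesSpecialSets
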