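import Pool.Agent.Run7.h177.GS.Hyp
import Pool.Agent.Run7.h418.E.Thm

/-!
# The generalized Green–Griffiths–Lang conjecture for projective varieties whose symmetric
# differentials generate a symmetric power of the cotangent sheaf

`X = {F = 0}` is a complex projective variety (or scheme), of any dimension, possibly singular, such
that finitely many regular symmetric differentials `σ j` of one degree `m > 0` generate `Sᵐ Ω` on `X`
(`SymForm`, `Generates`, `Pool/Agent/Run7/h418`). For example `X` is smooth and `Sᵐ Ω` is generated by
global sections; closed subvarieties of such an `X` inherit the property.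

Let `V` be a closed subvariety of `X` of positive dimension, with generic point `y` (`SubVar`); for
example `V = X` if `X` is irreducible. The conditions of the problem for `V`:

* (1) `GeneralType`: `V` is of general type;
* (2) `StronglyGeneral` (`Pool/Agent/R869/WMordDefs.lean`): `Sp_alg(V) ≠ V`, that is, all closed
  subvarieties of `V` of positive dimension which are not of general type are in one proper closed
  subset;
* (3) `PseudoPicard`: `Sp_p(V) ≠ V`: the same for the images of the holomorphic maps from the
  punctured disc to `V` which do not extend;
* (4) `PseudoBrody`: `Sp_h(V) ≠ V`: the same for the images of all nonconstant entire curves;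
* (5) `PseudoTorus`: the same for the images of the nonconstant holomorphic maps from complex tori to
  `V`; as `X` contains no rational curves (a remark, not part of the Lean) this is `Sp_sab(V) ≠ V`;
* (4b) `PseudoBounded`: (4) for the entire curves of bounded derivative.

Theorem.

1. (1), (2), (4), (5) and (4b) are equivalent, and (3) implies them.
2. `Sp_alg(X) = Sp_h(X)`: the Zariski closure of the union of all closed subvarieties of `X` of
   positive dimension which are not of general type is the Zariski closure of the union of the images
   of all nonconstant entire curves (`SpEnt`), and also of the union of the images of the maps from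
   complex tori, of the immersions of complex tori, and of the entire curves of bounded derivative.
3. The following are equivalent: all holomorphic maps from the punctured disc to `X` extend; there are
   no nonconstant entire curves in `X`; all closed subvarieties of `X` of positive dimension are of
   general type.

The theorem rests on the theorems of helper418 on entire curves and on tori in such varieties
(`Pool/Agent/Run7/h418`; the theorem on all entire curves, `Pool/Agent/Run7/h418/E`, was finished by
helper418 with pieces by helper177, helper711, helper83, helper847, helper712, helper283, helper576 and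
helper941).
-/

set_option autoImplicit false

open Pool.Agent.W602.GT Pool.Agent.N155 Run7.h418 Run7.h177.GS
open Pool.Agent.R869.Wd (StronglyGeneral)

namespace Pool.Agent.Results.MP_160ed4_ag.GeneratedDifferentials

/-- **The generalized Green–Griffiths–Lang conjecture for varieties with a generated symmetric power
of the cotangent sheaf.** -/
theorem result {n m : ℕ} {ι κ : Type} [Fintype κ] {F : ι → MvPolynomial (Fin (n + 1)) ℂ}
    (hF : ∀ i, IsForm (F i)) (hm : 0 < m)
    {σ : κ → (Fin (n + 1) → ℂ) → (Fin (n + 1) → ℂ) → ℂ} (hσ : ∀ j, SymForm F m (σ j))
    (hgen : Generates F m σ) :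
    (∀ (K : Type) [Field K] [Algebra ℂ K] (w : ℕ) (y : Fin (n + 1) → K), 0 < w →
      SubVar F K w y →
        [GeneralType ℂ K w, StronglyGeneral ℂ y, PseudoBrody y, PseudoTorus y,
          PseudoBounded y].TFAE ∧ (PseudoPicard y → GeneralType ℂ K w)) ∧
      (SpAlg F = E.SpEnt F ∧ SpAlg F = SpTor F ∧ SpAlg F = SpImm F ∧ SpAlg F = SpBrody F) ∧
      [PicardHyperbolic F, BrodyHyperbolic F, AllSubGeneral F].TFAE := by
  refine ⟨fun K _ _ w y hw hy => ⟨?_, fun h => (E.thm_iff hF hm hσ hgen hw hy).2
    (pseudoBrody_of_picard h)⟩, ?_, ?_⟩
  · tfae_have 1 ↔ 2 := strongly_iff hF hm hσ hgen hw hy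
    tfae_have 1 ↔ 3 := E.thm_iff hF hm hσ hgen hw hy
    tfae_have 1 ↔ 4 := U.general_iff_torus hF hm hσ hgen hw hy
    tfae_have 1 ↔ 5 := U.general_iff_bounded hF hm hσ hgen hw hy
    tfae_finish
  · exact ⟨(E.spEnt_alg hF hm hσ hgen).symm, (R.spTor_eq hF hm hσ hgen).symm,
      (R.spImm_eq hF hm hσ hgen).symm, (R.spBrody_eq hF hm hσ hgen).symm⟩
  · tfae_have 1 ↔ 2 := (brody_iff_picard hF).symm
    tfae_have 2 ↔ 3 := R.brody_iff hF hm hσ hgen
    tfae_finish

end Pool.Agent.Results.MP_160ed4_ag.GeneratedDifferentials
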