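import Mathlib
import Pool.Agent.Run7.h972.LS.GG

/-!
# The generalized Green–Griffiths–Lang conjecture for projective varieties, with the semi-abelian special
set, is a question on smooth hypersurfaces

Let `X = V(S)` be any projective variety in `P^n`, `n ≥ 1` (any dimension and any singularities), given
by forms of degree at most `d`, `d ≥ 3`, and `v : P^n → P^N` the Veronese embedding of degree `d`. For
all `D ≥ D₁(N)` there are quadratic forms `Q_t`, `t < N (2 N + 1)`, such that the hypersurface

`Y : ∑ t, Q_t(y) (y_0 + t y_1 + ⋯ + t^N y_N)^D = 0`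

is smooth, contains `v(X)`, and its four special sets are the images of those of `X`:
`Sp_alg(Y) = v(Sp_alg(X))`, `Sp_p(Y) = v(Sp_p(X))`, `Sp_h(Y) = v(Sp_h(X))`,
`Sp_sab(Y) = v(Sp_sab(X))`. (A form `G` on `P^N` vanishes on `Sp(Y)` if and only if its pull-back
`G(v(x))` vanishes on `Sp(X)`.)

Consequently Q1 (the five conditions are equivalent: general type, and each of the four special sets
is not the whole variety) for all irreducible projective varieties of positive dimension (smooth or
not; by resolution of singularities the same as for all smooth ones, as all five conditions are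
birationally invariant) is equivalent to the following statement on the smooth hypersurfaces `Y` of this
form, with `D` in any given infinite set of exponents: `Sp_alg(Y) = Sp_p(Y) = Sp_h(Y) = Sp_sab(Y)`,
and no irreducible component of positive dimension of this set is of general type.

Proof. See `Pool/Agent/N254/SQ`: maps from complex spaces, holomorphic maps from the punctured disc which
do not extend, and closed subvarieties of `Y` which are not of general type lie in `v(X)`. If `X` is of
general type and `v(X)` is contained in the special set of `Y`, then `v(X)` is a component of it;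
conversely a component of one of the special sets is a variety to which Q1 applies.
-/

set_option autoImplicit false

namespace Pool.Agent.Results.MP_160ed4_ag.SmoothHypersurfacesSuffice

open MvPolynomial
open Pool.Agent.W602.GT (SubVar GeneralType)
open Pool.Agent.N254.SQ (IsForm Eqs Component OnSpecial OnDiscs OnCurves OnSab SmoothForm powerForm
  Monomials veronese)

/-- Q1 for all irreducible projective varieties `V` of positive dimension, where `V` is the closed
subset of `P^n` with function field `L` and generic point `y`: (1) `V` is of general type; (2) - (5) the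
special set `Sp_alg(V)`, `Sp_p(V)`, `Sp_h(V)`, `Sp_sab(V)` is not all of `V`: some form which does
not vanish on `V` vanishes on it. -/
def GeneralizedGGL : Prop :=
  ∀ (n : ℕ) (L : Type) [Field L] [Algebra ℂ L] (w : ℕ) (y : Fin (n + 1) → L), 1 ≤ w →
    SubVar (fun p : (∅ : Set (MvPolynomial (Fin (n + 1)) ℂ)) => (p : MvPolynomial (Fin (n + 1)) ℂ))
      L w y →
    [GeneralType ℂ L w,
      ∃ G : MvPolynomial (Fin (n + 1)) ℂ, IsForm G ∧ aeval y G ≠ 0 ∧ OnSpecial (Eqs y) G,
      ∃ G : MvPolynomial (Fin (n + 1)) ℂ, IsForm G ∧ aeval y G ≠ 0 ∧ OnDiscs (Eqs y) G,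
      ∃ G : MvPolynomial (Fin (n + 1)) ℂ, IsForm G ∧ aeval y G ≠ 0 ∧ OnCurves (Eqs y) G,
      ∃ G : MvPolynomial (Fin (n + 1)) ℂ, IsForm G ∧ aeval y G ≠ 0 ∧ OnSab (Eqs y) G].TFAE

/-- the four special sets of `Y = V(A)` coincide, and no irreducible component of positive dimension of
this set is of general type -/
def SpecialSets {N : ℕ} (A : MvPolynomial (Fin (N + 1)) ℂ) : Prop :=
  (∀ G, IsForm G → (OnDiscs {A} G ↔ OnSpecial {A} G) ∧ (OnCurves {A} G ↔ OnSpecial {A} G) ∧
    (OnSab {A} G ↔ OnSpecial {A} G)) ∧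
    ∀ (L : Type) [Field L] [Algebra ℂ L] (w : ℕ) (y : Fin (N + 1) → L), 1 ≤ w →
      SubVar (fun _ : Unit => A) L w y → GeneralType ℂ L w → ¬ Component (OnSpecial {A}) y

open Pool.Agent.N254.SQ in
theorem result : ∃ D₁ : ℕ → ℕ,
    (∀ n d : ℕ, 1 ≤ n → 3 ≤ d → ∃ (N : ℕ) (m : Fin (N + 1) → Fin (n + 1) → ℕ),
      Monomials n N d m ∧ ∀ D, D₁ N ≤ D →
        ∀ S : Set (MvPolynomial (Fin (n + 1)) ℂ), (∀ p ∈ S, ∃ e ≤ d, p.IsHomogeneous e) →
        ∃ Q : Fin (N * (2 * N + 1)) → MvPolynomial (Fin (N + 1)) ℂ,
          (∀ t, (Q t).IsHomogeneous 2) ∧ SmoothForm (powerForm D Q) ∧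
          (∀ x : Fin (n + 1) → ℂ, (∀ p ∈ S, eval x p = 0) →
            eval (veronese m x) (powerForm D Q) = 0) ∧
          ∀ G, IsForm G → ∀ G₀, G₀ = aeval
              (fun a => ∏ j, (X j : MvPolynomial (Fin (n + 1)) ℂ) ^ m a j) G →
            (OnSpecial {powerForm D Q} G ↔ OnSpecial S G₀) ∧
            (OnDiscs {powerForm D Q} G ↔ OnDiscs S G₀) ∧
            (OnCurves {powerForm D Q} G ↔ OnCurves S G₀) ∧
            (OnSab {powerForm D Q} G ↔ OnSab S G₀)) ∧
    ∀ E : Set ℕ, E.Infinite →
      (GeneralizedGGL ↔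
        ∀ (N D : ℕ) (Q : Fin (N * (2 * N + 1)) → MvPolynomial (Fin (N + 1)) ℂ), D ∈ E →
          D₁ N ≤ D → (∀ t, (Q t).IsHomogeneous 2) → SmoothForm (powerForm D Q) →
          SpecialSets (powerForm D Q)) := by
  obtain ⟨D₁, H⟩ := t_geoc (t_alg (t_hblk t_hineq) t_hform)
  have hS : Exc (fun _ S T G => OnSpecialQ S T G) := t_qspec t_cent
  have hB : Exc (fun _ S T G => OnDiscsQ S T G) := t_qdisc
  have hC : Exc (fun _ S T G => OnCurvesQ S T G) := t_qcurv
  have hSab : Exc SabT := t_sab
  refine ⟨D₁, ?_, fun E hE => ⟨?_, ?_⟩⟩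
  · intro n d hn hd
    obtain ⟨N, m, hm, H2⟩ := sa_cons H n d hn hd
    refine ⟨N, m, ⟨hm.deg, hm.inj, hm.surj⟩, fun D hD S hS1 => ?_⟩
    obtain ⟨Q, hQ, hsm, hg, hga⟩ := H2 D hD S hS1
    refine ⟨Q, hQ, hsm, fun x hx => hg.sub ℂ x hx, ?_⟩
    rintro G hG _ rfl
    have h1 := hS.transfer n N d m S _ hg hga {1} {1} (sa_lifts m) G hG
    have h2 := hB.transfer n N d m S _ hg hga {1} {1} (sa_lifts m) G hG
    have h3 := hC.transfer n N d m S _ hg hga {1} {1} (sa_lifts m) G hG
    have h4 := hSab.transfer n N d m S _ hg hga {1} {1} (sa_lifts m) G hG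
    rw [sa_special, sa_special] at h1
    rw [Run7.h972.LS.gg_discs (sa_power hQ), Run7.h972.LS.gg_discs (fun p hp => by
      obtain ⟨e, -, he⟩ := hS1 p hp
      exact ⟨e, he⟩)] at h2
    rw [sa_curves, sa_curves] at h3
    rw [sa_sab, sa_sab] at h4
    exact ⟨h1, h2, h3, h4⟩
  · intro h N D Q _ _ hQ _
    exact Run7.h972.LS.five_forw hS t_qforw h ⟨_, power_form hQ⟩
  · intro h
    exact Run7.h972.LS.five_back t_cent hS t_qimp t_qeq H hE h

end Pool.Agent.Results.MP_160ed4_ag.SmoothHypersurfacesSuffice
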