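import Pool.Agent.Run7.h621.LA.LogFin

/-!
MP_160ed4_ag, Q1: a class of pairs for which the algebraic and the semi-abelian special set are
empty or one line, the only one that meets the boundary in at most two points; conditions (1), (2),
(5).

Let `K` be an algebraically closed field of characteristic `0`, such as the complex numbers, and let
`k` be a field contained in `K`, such as the rational numbers, with algebraic closure `k'` in `K`.
Let `V` be a closed subset of projective space of dimension `n`, defined over `k'`, of dimension at
most `m`. For `a` in a finite set `A` let `H_a` be a form of degree `d_a` over `K`, not `0`. The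
forms are supposed to satisfy at most `s` independent algebraic conditions over `k`: the ratios of
the coefficients of the `H_a` generate a field of transcendence degree at least `N - s` over `k`,
where `N` is the sum of the `binom (d_a + n) n - 1`, the dimension of the space of parameters. The
conditions can be of any kind, and nothing is supposed on the singularities.

Let `C` be a subset of `A`, let `X'` be the part of `V` where `H_a = 0` for `a` in `C`, let `D` be
the union of the `H_b = 0` for `b` not in `C`, and `X` the complement of `D` in `X'`. A bad line is a
line over `K` that is contained in `X'`, not contained in `D`, and meets `D` in at most two points.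

Let `q` be `0`, or such that `|A| + 2 q ≤ s`, `|A| + 4 q ≤ s + 3` and `s ≤ N`, and suppose that
`2 m + s + 1 ≤ ∑ d_a + |C| + q`. Then:

(1) there is at most one bad line; if there is one, then `∑ d_a + |C| ≤ s + 2 n`, and if moreover
`C = A`, so that `D` is empty, then `∑ (d_a + 1) + 2 ≤ s + 2 n`;

(2) a closed subvariety of `X` of positive dimension is of log general type if and only if it is not
the bad line (without `D`);

(3) the following three sets have the same Zariski closure: the union of the closed subvarieties of
`X` of positive dimension that are not of log general type, the union of the images of the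
nonconstant morphisms from the multiplicative group to `X`, and the bad line without `D` (the empty
set, if there is no bad line). The first closure is `Sp_alg (X)`, and the second one is contained in
`Sp_sab (X)`. The closed images of semi-abelian varieties are not of log general type, as is well
known, so that `Sp_sab (X) = Sp_alg (X)`: both are the bad line, or empty if there is none.

So if `X` is irreducible, of dimension at least `2`, then the conditions (1), (2) and (5) of the
problem hold for `X`, and the two special sets are equal, and at most one line. If
`s < ∑ d_a + |C| - 2 n`, they are empty.

For example, let `V` be the whole space, so that `m = n`. For the complement of a hypersurface of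
degree `d` the condition is `2 n + s + 1 ≤ d + q`, and for a hypersurface `X = X'` of degree `d` it
is `2 n + s ≤ d + q`. Here `q = 0`, or `1 + 2 q ≤ s` and `1 + 4 q ≤ s + 3`. So `s` can be about
`4 (d - 2 n) / 3`, while pairs with two bad lines appear only for `s` about `2 (d - 2 n)`. By the
usual dimension counts the first members of the series with a bad line do occur: complements for
`s ≥ d - 2 n`, `q ≥ 1`, and hypersurfaces for `s ≥ d - 2 n + 3`, `q ≥ 3`.

A closed subvariety of `X` of dimension `w` is given by its function field `L`, and its generic point
`x`, with homogeneous coordinates in `L`; it is contained in the line with the basis `p`, `r` if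
`x = u p + v r`, and then it is this line (without `D`), as its dimension is positive. A prime divisor `Q` over its closure has its centre in `D`
if `d_b min_i ord_Q (x_i) < ord_Q (H_b (x))` for some `b` not in `C`; `pord Q x` is the minimum of
the orders `ord_Q (x_i)`. The Zariski closures are compared by the forms `G` that vanish on the sets.
The morphisms from the multiplicative group to projective space are given by polynomials without
common zeros outside of `0`.
-/

set_option autoImplicit false

namespace Pool.Agent.Results.MP_160ed4_ag.SpecialSetsByLines

open MvPolynomial FF Pool.Agent.W602.GT Pool.Agent.TH145.MG Pool.Agent.Run7.h621.LG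
open Pool.Agent.Run7.h621.LA

theorem result {k K : Type} [Field k] [Field K] [IsAlgClosed K] [CharZero K] [Algebra k K]
    {n m s q : ℕ}
    -- a closed subset of projective space, of dimension at most `m`
    (V : Set (MvPolynomial (Fin (n + 1)) (algebraicClosure k K)))
    (hVh : ∀ f ∈ V, ∃ e, f.IsHomogeneous e) (hV : DimLE (algebraicClosure k K) V m)
    -- forms of degrees `d a` that satisfy at most `s` independent conditions over `k`
    {A : Type} [Fintype A] (d : A → ℕ) (H : A → MvPolynomial (Fin (n + 1)) K)
    (h : ConditionsLE k H d s) (hq : Small n d s q)
    -- the pair
    (C : Finset A) (hnum : 2 * m + s + 1 ≤ ∑ a, d a + C.card + q) :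
    -- there is at most one bad line
    (AtMostOne V H C ∧ ∀ p r, BadLine V H C p r → ∑ a, d a + C.card ≤ s + 2 * n ∧
      (C = Finset.univ → ∑ a, (d a + 1) + 2 ≤ s + 2 * n)) ∧
    -- closed subvarieties of positive dimension
    (∀ (L : Type) [Field L] [Algebra K L] (w : ℕ) (x : Fin (n + 1) → L), 0 < w →
      Algebra.trdeg K L = w → x ≠ 0 → coords K x = ⊤ → OnPairOf V H C x →
      ((LogGeneralType K L w fun Q => Q ∈ bdry C H d x) ↔
        ¬ ∃ p r, BadLine V H C p r ∧
          ∃ u v : L, ∀ i, x i = u * algebraMap K L (p i) + v * algebraMap K L (r i))) ∧
    -- the special sets
    ∀ (G : MvPolynomial (Fin (n + 1)) K) (e : ℕ), G.IsHomogeneous e →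
      (VanLines V H C G ↔ VanAlg V H d C G) ∧ (VanLines V H C G ↔ VanGm V H C G) := by
  refine ⟨⟨atMostOne hV h hq C hnum, fun p r hb => ⟨bad_count h C hb, ?_⟩⟩,
    fun L _ _ w x hw htr hx0 htop hx => gt_iff hVh hV h hq C hnum hw htr hx0 htop hx,
    fun G e hG => special hVh hV h hq C hnum hG⟩
  rintro rfl
  have : Infinite K := IsAlgClosed.instInfinite
  refine lines h Finset.univ ⟨hb.1.1, ?_⟩
  rintro f ⟨a, -, rfl⟩
  exact hb.1.2 _ (Or.inr ⟨a, Finset.mem_univ a, rfl⟩)

end Pool.Agent.Results.MP_160ed4_ag.SpecialSetsByLines
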